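import Mathlib

set_option autoImplicit false

namespace Pool.Agent.Results.MP_10f18b_co.NotSharp
open Finset Classical

/-- Number of neighbours of `v` inside `S`. -/
noncomputable def dg {n : ℕ} (G : SimpleGraph (Fin n)) (S : Finset (Fin n)) (v : Fin n) : ℕ :=
  (S.filter (G.Adj v)).card

/-- The `k`-independence number. -/
noncomputable def alpha {n : ℕ} (G : SimpleGraph (Fin n)) (k : ℕ) : ℕ :=
  sSup {a | ∃ S : Finset (Fin n), (∀ v ∈ S, dg G S v ≤ k) ∧ S.card = a}

/-- The infimum of `alpha / n` over graphs of average degree at most `d`. -/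
noncomputable def f (k d : ℕ) : ℝ :=
  sInf {r | ∃ (n : ℕ) (G : SimpleGraph (Fin n)), 0 < n ∧ (∑ v, (dg G univ v : ℝ)) / n ≤ d ∧
    r = (alpha G k : ℝ) / n}

variable {n : ℕ} (G : SimpleGraph (Fin n))

theorem dg_sum (S : Finset (Fin n)) (v : Fin n) : dg G S v = ∑ u ∈ S, if G.Adj v u then 1 else 0 := by
  rw [dg, card_filter]

theorem swap (S T : Finset (Fin n)) : ∑ v ∈ S, dg G T v = ∑ v ∈ T, dg G S v := by
  simp only [dg_sum]
  rw [sum_comm]
  simp only [G.adj_comm]

theorem dg_mono {S T : Finset (Fin n)} (h : S ⊆ T) (v : Fin n) : dg G S v ≤ dg G T v :=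
  card_le_card (filter_subset_filter _ h)

theorem cover (S B : Finset (Fin n)) : ∃ D ⊆ S, ∃ B' ⊆ B,
    (∀ b ∈ B, b ∉ B' → ∃ u ∈ D, u = b ∨ G.Adj b u) ∧ 3 * D.card + B'.card ≤ B.card ∧
    ∀ v ∈ S, (B'.filter fun b => v = b ∨ G.Adj b v).card ≤ 2 := by
  induction B using Finset.strongInduction with
  | H B ih =>
    by_cases h : ∀ v ∈ S, (B.filter fun b => v = b ∨ G.Adj b v).card ≤ 2
    · exact ⟨∅, empty_subset _, B, Subset.rfl, fun b a c => absurd a c, by simp, h⟩
    push Not at h
    obtain ⟨v, hv, h⟩ := h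
    have h1 := card_filter_add_card_filter_not (s := B) fun b => v = b ∨ G.Adj b v
    obtain ⟨D, a1, B', a2, a3, a4, a5⟩ := ih (B.filter fun b => ¬ (v = b ∨ G.Adj b v))
      (Finset.ssubset_iff_subset_ne.2 ⟨filter_subset _ _, fun e => by rw [e] at h1; omega⟩)
    refine ⟨insert v D, insert_subset hv a1, B', a2.trans (filter_subset _ _), fun b hb hb' => ?_,
      by have := card_insert_le v D; omega, a5⟩
    by_cases c : v = b ∨ G.Adj b v
    · exact ⟨v, mem_insert_self _ _, c⟩
    · obtain ⟨u, hu, h⟩ := a3 b (mem_filter.2 ⟨hb, c⟩) hb'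
      exact ⟨u, mem_insert_of_mem hu, h⟩

theorem main (S : Finset (Fin n)) : ∃ T ⊆ S, (∀ v ∈ T, dg G T v ≤ 7) ∧
    54 * S.card ≤ 54 * T.card + 3 * ∑ v ∈ S, dg G S v + 2 * S.card := by
  induction S using Finset.strongInduction with
  | H S ih =>
    by_cases h : ∃ v ∈ S, 9 ≤ dg G S v
    · obtain ⟨v, hv, h⟩ := h
      obtain ⟨T, a1, a2, a3⟩ := ih (S.erase v) (erase_ssubset hv)
      refine ⟨T, a1.trans (erase_subset _ _), a2, ?_⟩
      have b1 := card_erase_add_one hv
      have b2 := add_sum_erase S (dg G S) hv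
      have b3 := swap G (S.erase v) S
      have b4 := add_sum_erase S (dg G (S.erase v)) hv
      have b5 : dg G (S.erase v) v = dg G S v := by
        rw [dg, dg, filter_erase, erase_eq_of_notMem (by simp)]
      omega
    push Not at h
    obtain ⟨D, a1, B', a2, a3, a4, a5⟩ := cover G S (S.filter fun v => dg G S v = 8)
    have a6 : B' ⊆ S := a2.trans (filter_subset _ _)
    refine ⟨S \ (D ∪ B'), sdiff_subset, fun v hv => ?_, ?_⟩
    · simp only [mem_sdiff, mem_union, not_or] at hv
      by_cases c : dg G S v = 8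
      · obtain ⟨u, hu, rfl | h1⟩ := a3 v (mem_filter.2 ⟨hv.1, c⟩) hv.2.2
        · exact absurd hu hv.2.1
        · have : dg G (S \ (D ∪ B')) v < dg G S v := card_lt_card (Finset.ssubset_iff_subset_ne.2
            ⟨filter_subset_filter _ sdiff_subset, fun e => by
              have : u ∈ (S \ (D ∪ B')).filter (G.Adj v) := e ▸ mem_filter.2 ⟨a1 hu, h1⟩
              simp [hu] at this⟩)
          omega
      · have := dg_mono G (sdiff_subset (s := S) (t := D ∪ B')) v
        have := h v hv.1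
        omega
    · have b1 := le_card_sdiff (D ∪ B') S
      have b2 := card_union_le D B'
      have b3 : ∑ v ∈ S, dg G B' v = 8 * B'.card := by
        rw [swap, sum_const_nat fun v hv => (mem_filter.1 (a2 hv)).2, mul_comm]
      have b4 : ∀ v ∈ S, dg G B' v + (if v ∈ B' then 1 else 0) ≤ 2 := fun v hv => by
        refine le_trans ?_ (a5 v hv)
        split_ifs with c
        · rw [dg, ← card_insert_of_notMem (by simp : v ∉ _)]
          refine card_le_card (insert_subset (mem_filter.2 ⟨c, Or.inl rfl⟩) fun b hb => ?_)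
          exact mem_filter.2 ⟨(mem_filter.1 hb).1, Or.inr (mem_filter.1 hb).2.symm⟩
        · exact card_le_card fun b hb =>
            mem_filter.2 ⟨(mem_filter.1 hb).1, Or.inr (mem_filter.1 hb).2.symm⟩
      have b5 : ∀ v ∈ S, dg G B' v + (if v ∈ B' then 1 else 0) +
          6 * (if dg G S v = 8 then 1 else 0) ≤ dg G S v := fun v hv => by
        have := b4 v hv
        have := dg_mono G a6 v
        have := fun c : v ∈ B' => (mem_filter.1 (a2 c)).2
        split_ifs at * <;> simp_all <;> omega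
      have b6 := sum_le_sum b4
      have b7 := sum_le_sum b5
      simp only [sum_add_distrib, ← mul_sum, ← card_filter, b3, filter_mem_eq_inter,
        inter_eq_right.2 a6, sum_const, smul_eq_mul] at b6 b7
      omega

theorem result : ∃ k d : ℕ, 2 ≤ d ∧ d ≤ k ∧ (2 * k + 2 - d : ℝ) / (2 * k + 2) < f k d := by
  refine ⟨7, 7, by norm_num, le_rfl, lt_of_lt_of_le (b := 31 / 54) (by norm_num)
    (le_csInf ⟨_, 1, ⊥, one_pos, by simp [dg], rfl⟩ ?_)⟩
  rintro _ ⟨n, G, hn, h, rfl⟩
  obtain ⟨T, -, a, b⟩ := main G univ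
  have h1 : T.card ≤ alpha G 7 :=
    le_csSup ⟨_, by rintro _ ⟨S, -, rfl⟩; exact card_le_univ S⟩ ⟨T, a, rfl⟩
  have h2 : (0 : ℝ) < n := by exact_mod_cast hn
  rw [div_le_iff₀ h2] at h
  rw [le_div_iff₀ h2]
  rw [card_univ, Fintype.card_fin] at b
  have h3 : (54 * n : ℝ) ≤ 54 * T.card + 3 * ∑ v, (dg G univ v : ℝ) + 2 * n := by exact_mod_cast b
  have h4 : (T.card : ℝ) ≤ alpha G 7 := by exact_mod_cast h1
  push_cast at h
  linarith

end Pool.Agent.Results.MP_10f18b_co.NotSharp
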